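import Pool.Agent.R877.RN.Stm2

/-!
# RN-ZSOL: the cross term can be killed
-/

set_option autoImplicit false

namespace R877.RN
open Matrix Filter Topology

namespace ZSOL

variable {N : ℕ}

theorem sy_add (A B : Mat N) : sy (A + B) = sy A + sy B := by
  unfold sy
  rw [transpose_add]
  module

theorem sy_smul (c : ℝ) (A : Mat N) : sy (c • A) = c • sy A := by
  unfold sy
  rw [transpose_smul]
  module

theorem adm_add (μ : Br N) (x y : Fin N → ℝ) : adm μ (x + y) = adm μ x + adm μ y := by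
  ext k i
  simp [adm, add_mul, Finset.sum_add_distrib]

theorem adm_smul (μ : Br N) (c : ℝ) (x : Fin N → ℝ) : adm μ (c • x) = c • adm μ x := by
  ext k i
  simp [adm, mul_assoc, Finset.mul_sum]

theorem ell_add_left (μ : Br N) (D D' : Mat N) (x : Fin N → ℝ) :
    ell μ (D + D') x = ell μ D x + ell μ D' x := by
  unfold ell
  rw [sy_add, add_mul, trace_add]
  have : ∑ k, ∑ a, x k * (D + D') k a * ∑ i, μ a i i =
      ∑ k, ∑ a, x k * D k a * ∑ i, μ a i i + ∑ k, ∑ a, x k * D' k a * ∑ i, μ a i i := by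
    rw [← Finset.sum_add_distrib]
    refine Finset.sum_congr rfl fun k _ => ?_
    rw [← Finset.sum_add_distrib]
    refine Finset.sum_congr rfl fun a _ => ?_
    rw [Matrix.add_apply]; ring
  rw [this]; ring

theorem ell_smul_left (μ : Br N) (c : ℝ) (D : Mat N) (x : Fin N → ℝ) :
    ell μ (c • D) x = c * ell μ D x := by
  unfold ell
  rw [sy_smul, smul_mul_assoc, trace_smul, smul_eq_mul]
  have : ∑ k, ∑ a, x k * (c • D) k a * ∑ i, μ a i i =
      c * ∑ k, ∑ a, x k * D k a * ∑ i, μ a i i := by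
    rw [Finset.mul_sum]
    refine Finset.sum_congr rfl fun k _ => ?_
    rw [Finset.mul_sum]
    refine Finset.sum_congr rfl fun a _ => ?_
    rw [Matrix.smul_apply, smul_eq_mul]; ring
  rw [this]; ring

theorem ell_add_right (μ : Br N) (D : Mat N) (x y : Fin N → ℝ) :
    ell μ D (x + y) = ell μ D x + ell μ D y := by
  unfold ell
  rw [adm_add, sy_add, mul_add, trace_add]
  have : ∑ k, ∑ a, (x + y) k * D k a * ∑ i, μ a i i =
      ∑ k, ∑ a, x k * D k a * ∑ i, μ a i i + ∑ k, ∑ a, y k * D k a * ∑ i, μ a i i := by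
    rw [← Finset.sum_add_distrib]
    refine Finset.sum_congr rfl fun k _ => ?_
    rw [← Finset.sum_add_distrib]
    refine Finset.sum_congr rfl fun a _ => ?_
    rw [Pi.add_apply]; ring
  rw [this]; ring

theorem ell_smul_right (μ : Br N) (c : ℝ) (D : Mat N) (x : Fin N → ℝ) :
    ell μ D (c • x) = c * ell μ D x := by
  unfold ell
  rw [adm_smul, sy_smul, mul_smul_comm, trace_smul, smul_eq_mul]
  have : ∑ k, ∑ a, (c • x) k * D k a * ∑ i, μ a i i =
      c * ∑ k, ∑ a, x k * D k a * ∑ i, μ a i i := by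
    rw [Finset.mul_sum]
    refine Finset.sum_congr rfl fun k _ => ?_
    rw [Finset.mul_sum]
    refine Finset.sum_congr rfl fun a _ => ?_
    rw [Pi.smul_apply, smul_eq_mul]; ring
  rw [this]; ring

theorem trace_sy_sq (A : Mat N) : (sy A * sy A).trace = ∑ i, ∑ j, (sy A i j) ^ 2 := by
  have hs : ∀ i j, sy A j i = sy A i j := by
    intro i j
    simp [sy, add_comm]
  simp only [trace, diag_apply, Matrix.mul_apply]
  refine Finset.sum_congr rfl fun i _ => Finset.sum_congr rfl fun j _ => ?_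
  rw [hs i j]; ring

theorem sum_sy_sq (A : Mat N) : ∑ i, ∑ j, (sy A i j) ^ 2 =
    (1/2) * ∑ i, ∑ k, (A k i) ^ 2 + (1/2) * ∑ i, ∑ k, A k i * A i k := by
  have h1 : ∑ i, ∑ j, (sy A i j) ^ 2 = (1/4) * ∑ i, ∑ j, (A i j) ^ 2
      + (1/4) * ∑ i, ∑ j, (A j i) ^ 2 + (1/2) * ∑ i, ∑ j, A j i * A i j := by
    simp only [Finset.mul_sum]
    rw [← Finset.sum_add_distrib, ← Finset.sum_add_distrib]
    refine Finset.sum_congr rfl fun i _ => ?_
    rw [← Finset.sum_add_distrib, ← Finset.sum_add_distrib]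
    refine Finset.sum_congr rfl fun j _ => ?_
    simp only [sy, Matrix.smul_apply, Matrix.add_apply, transpose_apply, smul_eq_mul]
    ring
  have h2 : ∑ i, ∑ j, (A i j) ^ 2 = ∑ i, ∑ j, (A j i) ^ 2 := Finset.sum_comm
  rw [h1, h2]; ring

theorem ell_self (μ : Br N) (hμ : Asym μ) (w : Fin N → ℝ) :
    ell μ (adm μ w) w = RF μ w - ∑ i, ∑ j, (sy (adm μ w) i j) ^ 2
      - (1/4) * ∑ i, ∑ j, (∑ k, w k * μ i j k) ^ 2 := by
  have hT := trace_sy_sq (adm μ w)
  have hS := sum_sy_sq (adm μ w)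
  have hA : ∀ k i, adm μ w k i = ∑ p, w p * μ p i k := fun _ _ => rfl
  have hRF : RF μ w = - ∑ i, ∑ j, (sy (adm μ w) i j) ^ 2
      + (1/4) * ∑ i, ∑ j, (∑ k, w k * μ i j k) ^ 2
      - ∑ a, (∑ i, μ a i i) * ∑ p, ∑ q, w p * μ a p q * w q := by
    rw [hS]
    simp only [hA]
    unfold RF
    ring
  have hL : ∑ k, ∑ a, w k * adm μ w k a * ∑ i, μ a i i =
      - ∑ a, (∑ i, μ a i i) * ∑ p, ∑ q, w p * μ a p q * w q := by
    rw [Finset.sum_comm, ← Finset.sum_neg_distrib]
    refine Finset.sum_congr rfl fun a _ => ?_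
    have h1 : ∑ k, w k * adm μ w k a * ∑ i, μ a i i =
        (∑ i, μ a i i) * ∑ k, w k * adm μ w k a := by
      rw [Finset.mul_sum]
      exact Finset.sum_congr rfl fun k _ => by ring
    have h2 : ∑ k, w k * adm μ w k a = - ∑ p, ∑ q, w p * μ a p q * w q := by
      rw [Finset.sum_comm, ← Finset.sum_neg_distrib]
      refine Finset.sum_congr rfl fun k _ => ?_
      rw [hA, Finset.mul_sum, ← Finset.sum_neg_distrib]
      refine Finset.sum_congr rfl fun p _ => ?_
      rw [hμ p a k]; ring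
    rw [h1, h2]; ring
  unfold ell
  rw [hT, hL, hRF]
  ring

end ZSOL

open ZSOL in
theorem p_SOL : P_SOL := by
  intro N μ D hμ hneg
  have hlt : ∀ w : Fin N → ℝ, w ≠ 0 → ell μ (adm μ w) w < 0 := by
    intro w hw
    rw [ell_self μ hμ w]
    have h1 := hneg w hw
    have h2 : 0 ≤ ∑ i, ∑ j, (sy (adm μ w) i j) ^ 2 :=
      Finset.sum_nonneg fun i _ => Finset.sum_nonneg fun j _ => sq_nonneg _
    have h3 : 0 ≤ ∑ i, ∑ j, (∑ k, w k * μ i j k) ^ 2 :=
      Finset.sum_nonneg fun i _ => Finset.sum_nonneg fun j _ => sq_nonneg _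
    linarith
  let T : (Fin N → ℝ) →ₗ[ℝ] Module.Dual ℝ (Fin N → ℝ) :=
    LinearMap.mk₂ ℝ (fun w x => ell μ (adm μ w) x)
      (fun w w' x => by rw [adm_add, ell_add_left])
      (fun c w x => by rw [adm_smul, ell_smul_left, smul_eq_mul])
      (fun w x y => by rw [ell_add_right])
      (fun c w x => by rw [ell_smul_right, smul_eq_mul])
  have hT : ∀ w x, T w x = ell μ (adm μ w) x := fun w x => rfl
  have hinj : Function.Injective T := by
    rw [← LinearMap.ker_eq_bot, LinearMap.ker_eq_bot']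
    intro w hw
    by_contra hne
    have h1 := hlt w hne
    rw [← hT, hw] at h1
    simp at h1
  have hfin : Module.finrank ℝ (Fin N → ℝ) =
      Module.finrank ℝ (Module.Dual ℝ (Fin N → ℝ)) := Subspace.dual_finrank_eq.symm
  have hsurj : Function.Surjective T :=
    (LinearMap.injective_iff_surjective_of_finrank_eq_finrank hfin).1 hinj
  let E : Module.Dual ℝ (Fin N → ℝ) :=
    { toFun := fun x => - ell μ D x
      map_add' := fun x y => by rw [ell_add_right]; ring
      map_smul' := fun c x => by rw [ell_smul_right]; simp }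
  obtain ⟨w, hw⟩ := hsurj E
  refine ⟨w, fun x => ?_⟩
  have h1 : ell μ (adm μ w) x = - ell μ D x := by
    rw [← hT, hw]
    rfl
  rw [ell_add_left, h1]; ring

end R877.RN
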